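import Pool.Agent.W3helper16.PJ.Con3

/-!
# The Pisot substitution conjecture for compositions of substitutions with decreasing digits

Letters are `0, ..., m` with `m ≥ 2`. A substitution `τ` has the digits `a` (`HasDigits a τ`, in
`Pool/Agent/W3helper16/PJ/Base.lean`) if `τ j` consists of `a j` letters `0` and one letter `j+1`
for `j < m`, and `τ m` consists of `a m` letters `0`, in ANY order. So `inc τ` is the companion type
matrix with first row `a 0, ..., a m` and ones below the diagonal (the matrix of the beta
substitution for the expansion `a 0 a 1 ... a m` of `1`; its transpose is a Jacobi-Perron matrix).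

`compList [τ₁, ..., τ_k] = τ₁ ∘ ... ∘ τ_k`, `PisotMat M` says that `M` is unimodular, irreducible
and Pisot as in the problem file, `SemiConjToral σ` says that the subshift `X σ` is semi-conjugate
to a minimal toral translation as in the problem file (from `Pool/Agent/H812R2/PI/Defs.lean` and
`JDefs.lean`).

All compositions of any number `≥ 1` of substitutions, each with its own digits and its own order
of letters, have unimodular irreducible Pisot matrices and satisfy the conjecture, if all the digit
sequences are decreasing, `a 0 ≥ a 1 ≥ ... ≥ a m = 1`, with `a 0 ≥ 4` and either `a 0 ≥ a 1 + 2` or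
all inequalities strict (the two cases may be mixed in one composition).

Example: for three letters, all compositions of substitutions `0 ↦` any arrangement of `0^a 1`,
`1 ↦` any arrangement of `0^b 2`, `2 ↦ 0` with `a > b ≥ 1` and `a ≥ 4` (`a` and `b` may depend on
the factor).

Built on `Pool/Agent/H812R2/PI` (helper812 and others: coincidences imply the conjecture),
`Pool/Agent/Y316/Pisot` and `Pool/Agent/H906R3/CY/PF.lean` (Perron-Frobenius).
-/

set_option autoImplicit false

namespace Pool.Agent.Results.MP_e732b0_an.DecreasingDigits

open Pool.Agent.H812R2.PI Pool.Agent.W3helper16.PJ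

theorem result (m : ℕ) (hm : 2 ≤ m) (l : List (Fin (m+1) → List (Fin (m+1)))) (hne : l ≠ [])
    (hl : ∀ τ ∈ l, ∃ a : ℕ → ℕ, HasDigits a τ ∧ (∀ j, j < m → a (j+1) ≤ a j) ∧ a m = 1 ∧
      4 ≤ a 0 ∧ (a 1 + 2 ≤ a 0 ∨ ∀ j, j < m → a (j+1) < a j)) :
    PisotMat (inc (compList l)) ∧ SemiConjToral (compList l) :=
  (fam3 hm).main (by omega) l hne fun τ hτ => by
    obtain ⟨a, h1, h2, h3, h4, h5⟩ := hl τ hτ
    exact ⟨a, ⟨h2, h3, h4, h5⟩, h1⟩

end Pool.Agent.Results.MP_e732b0_an.DecreasingDigits
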